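import Mathlib
import Pool.Agent.Lib.helper19.TreeDec

set_option autoImplicit false

namespace Pool.Agent.Results.MP_0bffa7_co.Blowup

open Finset

/-- `(T, B)` is a tree decomposition of `G`. -/
def IsTreeDecomp {n r : ℕ} (G : SimpleGraph (Fin n)) (T : SimpleGraph (Fin r))
    (B : Fin r → Finset (Fin n)) : Prop :=
  T.IsTree ∧ (∀ v, ∃ i, v ∈ B i) ∧ (∀ u v, G.Adj u v → ∃ i, u ∈ B i ∧ v ∈ B i) ∧
    ∀ v, (T.induce {i | v ∈ B i}).Connected

/-- Tree-independence number: the least `k` such that some tree decomposition has no independent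
set of size above `k` inside a bag. -/
noncomputable def treeAlpha {n : ℕ} (G : SimpleGraph (Fin n)) : ℕ :=
  sInf {k | ∃ (r : ℕ) (T : SimpleGraph (Fin r)) (B : Fin r → Finset (Fin n)),
    IsTreeDecomp G T B ∧ ∀ i, ∀ s ⊆ B i, G.IsIndepSet (s : Set (Fin n)) → s.card ≤ k}

/-- Induced biclique number. -/
noncomputable def ibn {n : ℕ} (G : SimpleGraph (Fin n)) : ℕ :=
  sSup {t | Nonempty (completeBipartiteGraph (Fin t) (Fin t) ↪g G)}

def c5 (a b : Fin 5) : Prop := a + 1 = b ∨ b + 1 = a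

instance : DecidableRel c5 := fun a b => inferInstanceAs (Decidable (a + 1 = b ∨ b + 1 = a))

def Γ {n : ℕ} (g : Fin n → Fin 5) : SimpleGraph (Fin n) where
  Adj u v := c5 (g u) (g v)
  symm := ⟨fun _ _ h => Or.symm h⟩
  loopless := ⟨fun u => (by decide : ∀ a : Fin 5, ¬ c5 a a) (g u)⟩

theorem p5free {n : ℕ} (g : Fin n → Fin 5) : IsEmpty (SimpleGraph.pathGraph 5 ↪g Γ g) := by
  refine ⟨fun f => ?_⟩
  have h : ∀ i j, c5 (g (f i)) (g (f j)) ↔ (i.val + 1 = j.val ∨ j.val + 1 = i.val) := by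
    intro i j
    rw [← SimpleGraph.pathGraph_adj]
    exact f.map_adj_iff
  have key : ∀ a b c d e : Fin 5, c5 a b → c5 b c → c5 c d → c5 d e → ¬ c5 a d → ¬ c5 a e →
      ¬ c5 b e → False := by decide
  exact key _ _ _ _ _ ((h 0 1).mpr (by decide)) ((h 1 2).mpr (by decide))
    ((h 2 3).mpr (by decide)) ((h 3 4).mpr (by decide)) (by rw [h 0 3]; decide)
    (by rw [h 0 4]; decide) (by rw [h 1 4]; decide)

theorem ibn_le {n : ℕ} (g : Fin n → Fin 5) (m : ℕ)
    (hg : ∀ a, (univ.filter (fun v => g v = a)).card = m) : ibn (Γ g) ≤ m := by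
  refine csSup_le' ?_
  rintro t ⟨f⟩
  have h : ∀ i j, c5 (g (f (Sum.inl i))) (g (f (Sum.inr j))) := by
    intro i j
    exact f.map_adj_iff.mpr (by simp)
  have side : ∀ (k : Fin t → Fin n), Function.Injective k → (∀ i j, g (k i) = g (k j)) →
      t ≤ m := by
    intro k hk hc
    rcases Nat.eq_zero_or_pos t with h0 | h0
    · omega
    rw [← hg (g (k ⟨0, h0⟩))]
    have := card_le_card_of_injOn (s := (univ : Finset (Fin t)))
      (t := univ.filter (fun v => g v = g (k ⟨0, h0⟩))) k (fun i _ => by simp [hc i ⟨0, h0⟩])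
      hk.injOn
    simpa using this
  by_cases h1 : ∀ i j, g (f (Sum.inl i)) = g (f (Sum.inl j))
  · exact side (fun i => f (Sum.inl i)) (f.injective.comp Sum.inl_injective) h1
  · push Not at h1
    obtain ⟨i, i', hii⟩ := h1
    have key : ∀ a a' b b' : Fin 5, a ≠ a' → c5 a b → c5 a b' → c5 a' b → c5 a' b' → b = b' := by
      decide
    exact side (fun i => f (Sum.inr i)) (f.injective.comp Sum.inr_injective)
      (fun j j' => key _ _ _ _ hii (h i j) (h i j') (h i' j) (h i' j'))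

theorem le_treeAlpha {n : ℕ} (g : Fin n → Fin 5) (m : ℕ) (hn : 0 < n)
    (hg : ∀ a, (univ.filter (fun v => g v = a)).card = m) : 2 * m ≤ treeAlpha (Γ g) := by
  refine le_csInf ⟨n, 1, ⊥, fun _ => univ, ⟨SimpleGraph.IsTree.of_subsingleton,
    fun v => ⟨0, mem_univ _⟩, fun u v _ => ⟨0, mem_univ _, mem_univ _⟩, fun v => ?_⟩,
    fun _ s _ _ => by simpa using card_le_univ s⟩ ?_
  · have : Nonempty {i : Fin 1 | v ∈ (univ : Finset (Fin n))} := ⟨⟨0, mem_univ v⟩⟩
    exact SimpleGraph.IsTree.of_subsingleton.connected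
  rintro k ⟨r, T, B, ⟨hT, -, h2, h3⟩, hk⟩
  obtain ⟨top, d, -, ht⟩ := H19Tree.exists_top hT (fun v => {i | v ∈ B i}) h3
  obtain ⟨v, -, hv⟩ := exists_max_image univ d ⟨⟨0, hn⟩, mem_univ _⟩
  have := hk (top v) (univ.filter (fun u => g u = g v + 1) ∪ univ.filter (fun u => g u = g v + 4))
    (by
      intro u hu
      refine ht u v (hv u (mem_univ _)) (h2 u v ?_)
      simp only [mem_union, mem_filter, mem_univ, true_and] at hu
      exact (by decide : ∀ a b : Fin 5, (a = b + 1 ∨ a = b + 4) → c5 a b) _ _ hu)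
    (by
      intro u hu w hw _
      simp only [coe_union, coe_filter, mem_univ, true_and, Set.mem_union,
        Set.mem_ofPred_eq] at hu hw
      exact (by decide : ∀ a b c : Fin 5, (a = b + 1 ∨ a = b + 4) → (c = b + 1 ∨ c = b + 4) →
        ¬ c5 a c) _ _ _ hu hw)
  rw [card_union_of_disjoint, hg, hg] at this
  · omega
  · rw [disjoint_filter]
    intro u _ h1 h2
    exact (by decide : ∀ b : Fin 5, b + 1 ≠ b + 4) _ (h1.symm.trans h2)

theorem result : ¬ ∃ c : ℝ, ∀ (n : ℕ) (G : SimpleGraph (Fin n)),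
    IsEmpty (SimpleGraph.pathGraph 5 ↪g G) → (treeAlpha G : ℝ) ≤ ibn G + c := by
  rintro ⟨c, h⟩
  obtain ⟨m, hm⟩ := exists_nat_gt (max c 0)
  have hm0 : 0 < m := by exact_mod_cast lt_of_le_of_lt (le_max_right c 0) hm
  have hmc : c < m := lt_of_le_of_lt (le_max_left c 0) hm
  let e : Fin (5 * m) ≃ Fin 5 × Fin m := finProdFinEquiv.symm
  have hg : ∀ a, (univ.filter (fun v => (e v).1 = a)).card = m := by
    intro a
    have : (univ.filter (fun v => (e v).1 = a)).card = (({a} : Finset (Fin 5)) ×ˢ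
        (univ : Finset (Fin m))).card := by
      refine card_equiv e ?_
      intro v
      rw [mem_product]
      simp
    simpa using this
  have h1 := h (5 * m) (Γ fun v => (e v).1) (p5free _)
  have h2 : ((2 * m : ℕ) : ℝ) ≤ treeAlpha (Γ fun v => (e v).1) := by
    exact_mod_cast le_treeAlpha _ m (by omega) hg
  have h3 : (ibn (Γ fun v => (e v).1) : ℝ) ≤ m := by exact_mod_cast ibn_le _ m hg
  push_cast at h2
  linarith

end Pool.Agent.Results.MP_0bffa7_co.Blowup
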